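import Pool.Agent.Q171.NF.Main

/-!
# Automorphisms of a free product of two groups which permute the factors up to conjugation
-/

set_option autoImplicit false

namespace Q171.NF

open Pool.Agent.Y110.FJ (Amg ClosedE)
open Q27.FJT SimpleGraph

section

variable {A B : Type} [Group A] [Group B] {Γ : Type} [Group Γ]

/-- the image of the first factor -/
abbrev iA (ι : Monoid.Coprod A B →* Γ) : Subgroup Γ := (ι.comp Monoid.Coprod.inl).range

/-- the image of the second factor -/
abbrev iB (ι : Monoid.Coprod A B →* Γ) : Subgroup Γ := (ι.comp Monoid.Coprod.inr).range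

theorem isFreeProd_of_inj (ι : Monoid.Coprod A B →* Γ) (hι : Function.Injective ι) :
    IsFreeProd (iA ι) (iB ι) := by
  let e : Monoid.Coprod A B →* Monoid.Coprod (iA ι) (iB ι) :=
    Monoid.Coprod.map (ι.comp Monoid.Coprod.inl).rangeRestrict
      (ι.comp Monoid.Coprod.inr).rangeRestrict
  have h1 : (Monoid.Coprod.lift (iA ι).subtype (iB ι).subtype).comp e = ι := by
    apply Monoid.Coprod.hom_ext
    · ext a
      rfl
    · ext b
      rfl
  have h2 : ∀ z, ∃ w, e w = z := by
    intro z
    induction z using Monoid.Coprod.induction_on with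
    | inl a =>
      obtain ⟨_, a, rfl⟩ := a
      exact ⟨Monoid.Coprod.inl a, rfl⟩
    | inr b =>
      obtain ⟨_, b, rfl⟩ := b
      exact ⟨Monoid.Coprod.inr b, rfl⟩
    | mul s t hs ht =>
      obtain ⟨s, rfl⟩ := hs
      obtain ⟨t, rfl⟩ := ht
      exact ⟨s * t, map_mul _ _ _⟩
  unfold IsFreeProd
  rw [injective_iff_map_eq_one]
  intro z hz
  obtain ⟨w, rfl⟩ := h2 z
  have h3 : ι w = 1 := by
    rw [← h1]
    exact hz
  rw [hι (h3.trans (map_one ι).symm), map_one]

theorem iA_ne_bot [Nontrivial A] (ι : Monoid.Coprod A B →* Γ) (hι : Function.Injective ι) :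
    iA ι ≠ ⊥ := by
  obtain ⟨a, ha⟩ := exists_ne (1 : A)
  rw [Subgroup.ne_bot_iff_exists_ne_one]
  refine ⟨⟨_, a, rfl⟩, fun h => ha ?_⟩
  have h1 : ι (Monoid.Coprod.inl a) = 1 := congrArg Subtype.val h
  exact Monoid.Coprod.inl_injective ((hι (h1.trans (map_one ι).symm)).trans
    (map_one Monoid.Coprod.inl).symm)

theorem iB_ne_bot [Nontrivial B] (ι : Monoid.Coprod A B →* Γ) (hι : Function.Injective ι) :
    iB ι ≠ ⊥ := by
  obtain ⟨a, ha⟩ := exists_ne (1 : B)
  rw [Subgroup.ne_bot_iff_exists_ne_one]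
  refine ⟨⟨_, a, rfl⟩, fun h => ha ?_⟩
  have h1 : ι (Monoid.Coprod.inr a) = 1 := congrArg Subtype.val h
  exact Monoid.Coprod.inr_injective ((hι (h1.trans (map_one ι).symm)).trans
    (map_one Monoid.Coprod.inr).symm)

theorem iAB (ι : Monoid.Coprod A B →* Γ) : iA ι ⊔ iB ι = ι.range := by
  rw [← Monoid.Coprod.range_eq]

end

section

variable (A B : Type) [Group A] [Group B]

/-- the first factor of the free product -/
abbrev A0 : Subgroup (Monoid.Coprod A B) := (Monoid.Coprod.inl : A →* Monoid.Coprod A B).range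

/-- the second factor of the free product -/
abbrev B0 : Subgroup (Monoid.Coprod A B) := (Monoid.Coprod.inr : B →* Monoid.Coprod A B).range

theorem isFreeProd0 : IsFreeProd (A0 A B) (B0 A B) :=
  isFreeProd_of_inj (MonoidHom.id _) Function.injective_id

theorem A0_ne_bot [Nontrivial A] : A0 A B ≠ ⊥ :=
  iA_ne_bot (MonoidHom.id _) Function.injective_id

theorem B0_ne_bot [Nontrivial B] : B0 A B ≠ ⊥ :=
  iB_ne_bot (MonoidHom.id _) Function.injective_id

theorem sup0 : A0 A B ⊔ B0 A B = ⊤ := by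
  have h := iAB (MonoidHom.id (Monoid.Coprod A B))
  rw [MonoidHom.range_eq_top.2 Function.surjective_id] at h
  exact h

variable {A B}

/-- an element normalizing `A0` is in `A0` -/
theorem normA [Nontrivial A] [Nontrivial B] {x : Monoid.Coprod A B}
    (h : cj x (A0 A B) = A0 A B) : x ∈ A0 A B := by
  have hx : x ∈ A0 A B ⊔ B0 A B := by rw [sup0]; trivial
  have h1 : th (A0 A B) (B0 A B) (vA _ _ ⟨x, hx⟩) = th (A0 A B) (B0 A B) (vA _ _ 1) := by
    rw [th_A, th_A, OneMemClass.coe_one, cj_one]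
    exact h
  have h2 := th_inj (isFreeProd0 A B) (A0_ne_bot A B) (B0_ne_bot A B) h1
  rw [eq_comm, vA_eq, Subgroup.mem_subgroupOf] at h2
  simpa using h2

theorem normB [Nontrivial A] [Nontrivial B] {x : Monoid.Coprod A B}
    (h : cj x (B0 A B) = B0 A B) : x ∈ B0 A B := by
  have hx : x ∈ A0 A B ⊔ B0 A B := by rw [sup0]; trivial
  have h1 : th (A0 A B) (B0 A B) (vB _ _ ⟨x, hx⟩) = th (A0 A B) (B0 A B) (vB _ _ 1) := by
    rw [th_B, th_B, OneMemClass.coe_one, cj_one]
    exact h
  have h2 := th_inj (isFreeProd0 A B) (A0_ne_bot A B) (B0_ne_bot A B) h1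
  rw [eq_comm, vB_eq, Subgroup.mem_subgroupOf] at h2
  simpa using h2

theorem inter0 {x : Monoid.Coprod A B} (h1 : x ∈ A0 A B) (h2 : x ∈ B0 A B) : x = 1 := by
  refine eq_one_of_mem (isFreeProd0 A B) (u := vA _ _ 1) (v := vB _ _ 1) Sum.inl_ne_inr ?_ ?_
  · rw [th_A, OneMemClass.coe_one, cj_one]; exact h1
  · rw [th_B, OneMemClass.coe_one, cj_one]; exact h2

/-- the centre is trivial -/
theorem conj_inj [Nontrivial A] [Nontrivial B] :
    Function.Injective (MulAut.conj : Monoid.Coprod A B →* MulAut (Monoid.Coprod A B)) := by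
  rw [injective_iff_map_eq_one]
  intro x hx
  have h1 : ∀ P : Subgroup (Monoid.Coprod A B), cj x P = P := by
    intro P
    unfold cj
    rw [hx]
    exact Subgroup.map_id P
  exact inter0 (normA (h1 _)) (normB (h1 _))

/-- the automorphism of the free product given by automorphisms of the factors -/
def mp : MulAut A × MulAut B →* MulAut (Monoid.Coprod A B) where
  toFun p := MulEquiv.coprodCongr p.1 p.2
  map_one' := by
    apply MulEquiv.toMonoidHom_injective
    apply Monoid.Coprod.hom_ext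
    · ext a; rfl
    · ext a; rfl
  map_mul' p q := by
    apply MulEquiv.toMonoidHom_injective
    apply Monoid.Coprod.hom_ext
    · ext a; rfl
    · ext a; rfl

theorem mp_inl (p : MulAut A × MulAut B) (a : A) :
    mp p (Monoid.Coprod.inl a) = Monoid.Coprod.inl (p.1 a) := rfl

theorem mp_inr (p : MulAut A × MulAut B) (b : B) :
    mp p (Monoid.Coprod.inr b) = Monoid.Coprod.inr (p.2 b) := rfl

theorem aut_conj {G : Type} [Group G] (φ : MulAut G) (x : G) :
    φ * MulAut.conj x = MulAut.conj (φ x) * φ := by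
  ext y
  change φ (x * y * x⁻¹) = φ x * φ y * (φ x)⁻¹
  rw [map_mul, map_mul, map_inv]

/-- automorphisms which preserve both factors -/
theorem exists_mp {φ : MulAut (Monoid.Coprod A B)} (hA : (A0 A B).map φ.toMonoidHom = A0 A B)
    (hB : (B0 A B).map φ.toMonoidHom = B0 A B) : ∃ p, mp p = φ := by
  have h1 : ∀ a : A, ∃ a' : A, φ (Monoid.Coprod.inl a) = Monoid.Coprod.inl a' := by
    intro a
    have h : φ (Monoid.Coprod.inl a) ∈ (A0 A B).map φ.toMonoidHom := ⟨_, ⟨a, rfl⟩, rfl⟩
    rw [hA] at h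
    obtain ⟨a', ha'⟩ := h
    exact ⟨a', ha'.symm⟩
  have h2 : ∀ a : A, ∃ a' : A, φ (Monoid.Coprod.inl a') = Monoid.Coprod.inl a := by
    intro a
    have h : (Monoid.Coprod.inl a : Monoid.Coprod A B) ∈ A0 A B := ⟨a, rfl⟩
    rw [← hA] at h
    obtain ⟨_, ⟨a', rfl⟩, ha'⟩ := h
    exact ⟨a', ha'⟩
  have h3 : ∀ a : B, ∃ a' : B, φ (Monoid.Coprod.inr a) = Monoid.Coprod.inr a' := by
    intro a
    have h : φ (Monoid.Coprod.inr a) ∈ (B0 A B).map φ.toMonoidHom := ⟨_, ⟨a, rfl⟩, rfl⟩
    rw [hB] at h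
    obtain ⟨a', ha'⟩ := h
    exact ⟨a', ha'.symm⟩
  have h4 : ∀ a : B, ∃ a' : B, φ (Monoid.Coprod.inr a') = Monoid.Coprod.inr a := by
    intro a
    have h : (Monoid.Coprod.inr a : Monoid.Coprod A B) ∈ B0 A B := ⟨a, rfl⟩
    rw [← hB] at h
    obtain ⟨_, ⟨a', rfl⟩, ha'⟩ := h
    exact ⟨a', ha'⟩
  choose f hf using h1
  choose f' hf' using h2
  choose g hg using h3
  choose g' hg' using h4
  let α : MulAut A :=
    { toFun := f
      invFun := f'
      left_inv := fun a => by
        apply Monoid.Coprod.inl_injective (N := B)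
        apply φ.injective
        rw [hf', hf]
      right_inv := fun a => by
        apply Monoid.Coprod.inl_injective (N := B)
        rw [← hf, hf']
      map_mul' := fun a b => by
        apply Monoid.Coprod.inl_injective (N := B)
        rw [← hf, map_mul, map_mul, hf, hf, map_mul] }
  let β : MulAut B :=
    { toFun := g
      invFun := g'
      left_inv := fun a => by
        apply Monoid.Coprod.inr_injective (M := A)
        apply φ.injective
        rw [hg', hg]
      right_inv := fun a => by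
        apply Monoid.Coprod.inr_injective (M := A)
        rw [← hg, hg']
      map_mul' := fun a b => by
        apply Monoid.Coprod.inr_injective (M := A)
        rw [← hg, map_mul, map_mul, hg, hg, map_mul] }
  refine ⟨(α, β), ?_⟩
  apply MulEquiv.toMonoidHom_injective
  apply Monoid.Coprod.hom_ext
  · ext a
    change mp (α, β) (Monoid.Coprod.inl a) = φ (Monoid.Coprod.inl a)
    rw [mp_inl, hf]
    rfl
  · ext a
    change mp (α, β) (Monoid.Coprod.inr a) = φ (Monoid.Coprod.inr a)
    rw [mp_inr, hg]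
    rfl

end

end Q171.NF
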