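import Pool.Agent.Q171.NF.Words
import Pool.Agent.Q27.FJT.AmgTree

/-!
# Internal free products of two subgroups: universal property, generating pairs, the tree
-/

set_option autoImplicit false

namespace Q171.NF

open Pool.Agent.Y110.FJ (Amg)
open Q27.FJT SimpleGraph

section

variable {Γ : Type} [Group Γ]

/-- the conjugate `g P g⁻¹` -/
def cj (g : Γ) (P : Subgroup Γ) : Subgroup Γ := P.map (MulAut.conj g).toMonoidHom

theorem mem_cj {g x : Γ} {P : Subgroup Γ} : x ∈ cj g P ↔ g⁻¹ * x * g ∈ P := by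
  constructor
  · rintro ⟨y, hy, rfl⟩
    change g⁻¹ * (g * y * g⁻¹) * g ∈ P
    have : g⁻¹ * (g * y * g⁻¹) * g = y := by group
    rwa [this]
  · intro h
    refine ⟨_, h, ?_⟩
    change g * (g⁻¹ * x * g) * g⁻¹ = x
    group

theorem cj_one (P : Subgroup Γ) : cj 1 P = P := by
  ext x; rw [mem_cj]; simp

theorem cj_mul (g h : Γ) (P : Subgroup Γ) : cj (g * h) P = cj g (cj h P) := by
  ext x
  rw [mem_cj, mem_cj, mem_cj]
  have : (g * h)⁻¹ * x * (g * h) = h⁻¹ * (g⁻¹ * x * g) * h := by group
  rw [this]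

theorem cj_self {g : Γ} {P : Subgroup Γ} (hg : g ∈ P) : cj g P = P := by
  ext x
  rw [mem_cj]
  constructor
  · intro h
    have h1 := P.mul_mem (P.mul_mem hg h) (P.inv_mem hg)
    have : g * (g⁻¹ * x * g) * g⁻¹ = x := by group
    rwa [this] at h1
  · intro h
    exact P.mul_mem (P.mul_mem (P.inv_mem hg) h) hg

theorem cj_inj {g : Γ} {P Q : Subgroup Γ} (h : cj g P = cj g Q) : P = Q := by
  have h1 := congrArg (cj g⁻¹) h
  rwa [← cj_mul, ← cj_mul, inv_mul_cancel, cj_one, cj_one] at h1

theorem cj_sup (g : Γ) (P Q : Subgroup Γ) : cj g (P ⊔ Q) = cj g P ⊔ cj g Q :=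
  Subgroup.map_sup _ _ _

theorem cj_normal (g : Γ) (N : Subgroup Γ) [hN : N.Normal] : cj g N = N := by
  ext x
  rw [mem_cj]
  constructor
  · intro h
    have h1 := hN.conj_mem _ h g
    have : g * (g⁻¹ * x * g) * g⁻¹ = x := by group
    rwa [this] at h1
  · intro h
    have h1 := hN.conj_mem _ h g⁻¹
    rwa [inv_inv] at h1

theorem mem_normalizer_iff_cj {g : Γ} {P : Subgroup Γ} :
    g ∈ Subgroup.normalizer (P : Set Γ) ↔ cj g P = P := by
  rw [Subgroup.mem_normalizer_iff]
  constructor
  · intro h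
    ext x
    rw [mem_cj, h (g⁻¹ * x * g)]
    have : g * (g⁻¹ * x * g) * g⁻¹ = x := by group
    rw [this]
  · intro h x
    have h1 : x ∈ P ↔ g * x * g⁻¹ ∈ cj g P := by
      rw [mem_cj]
      have : g⁻¹ * (g * x * g⁻¹) * g = x := by group
      rw [this]
    rw [h1, h]

/-- `A ⊔ B` is the free product of `A` and `B` -/
def IsFreeProd (A B : Subgroup Γ) : Prop :=
  Function.Injective (Monoid.Coprod.lift A.subtype B.subtype)

variable {A B : Subgroup Γ}

theorem lift_range : (Monoid.Coprod.lift A.subtype B.subtype).range = A ⊔ B := by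
  rw [Monoid.Coprod.range_lift, Subgroup.range_subtype, Subgroup.range_subtype]

theorem exists_word {n : Γ} (hn : n ∈ A ⊔ B) :
    ∃ x, Monoid.Coprod.lift A.subtype B.subtype x = n := by
  rw [← lift_range] at hn
  exact hn

/-- the universal property -/
theorem amg (hf : IsFreeProd A B) :
    Amg (A.subgroupOf (A ⊔ B)) (B.subgroupOf (A ⊔ B)) (⊥ : Subgroup ↥(A ⊔ B)) where
  le_left := bot_le
  le_right := bot_le
  gen := by
    rw [eq_top_iff]
    intro x _
    have h1 : ∀ y : Monoid.Coprod A B, ∀ h : Monoid.Coprod.lift A.subtype B.subtype y ∈ A ⊔ B,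
        (⟨Monoid.Coprod.lift A.subtype B.subtype y, h⟩ : ↥(A ⊔ B)) ∈
          A.subgroupOf (A ⊔ B) ⊔ B.subgroupOf (A ⊔ B) := by
      intro y
      have hmem : ∀ z : Monoid.Coprod A B,
          Monoid.Coprod.lift A.subtype B.subtype z ∈ A ⊔ B := fun z => by
        rw [← lift_range]; exact ⟨z, rfl⟩
      induction y using Monoid.Coprod.induction_on with
      | inl a =>
        intro h
        refine Subgroup.mem_sup_left ?_
        rw [Subgroup.mem_subgroupOf]
        change Monoid.Coprod.lift A.subtype B.subtype (Monoid.Coprod.inl a) ∈ A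
        rw [Monoid.Coprod.lift_apply_inl]
        exact a.2
      | inr b =>
        intro h
        refine Subgroup.mem_sup_right ?_
        rw [Subgroup.mem_subgroupOf]
        change Monoid.Coprod.lift A.subtype B.subtype (Monoid.Coprod.inr b) ∈ B
        rw [Monoid.Coprod.lift_apply_inr]
        exact b.2
      | mul s t hs ht =>
        intro h
        have h3 := mul_mem (hs (hmem s)) (ht (hmem t))
        convert h3 using 1
        exact Subtype.ext (map_mul _ s t)
    obtain ⟨y, hy⟩ := exists_word x.2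
    have h2 := h1 y (by rw [hy]; exact x.2)
    have h3 : (⟨Monoid.Coprod.lift A.subtype B.subtype y, by rw [hy]; exact x.2⟩ : ↥(A ⊔ B)) = x :=
      Subtype.ext hy
    rwa [h3] at h2
  univ := by
    intro H _ f g _
    let i : Monoid.Coprod A B →* ↥(A ⊔ B) :=
      (Monoid.Coprod.lift A.subtype B.subtype).codRestrict (A ⊔ B) (fun z => by
        rw [← lift_range]; exact ⟨z, rfl⟩)
    have hi : Function.Bijective i := by
      constructor
      · intro a b hab
        exact hf (congrArg Subtype.val hab)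
      · intro x
        obtain ⟨y, hy⟩ := exists_word x.2
        exact ⟨y, Subtype.ext hy⟩
    let e := MulEquiv.ofBijective i hi
    let fA : A →* H := f.comp
      ({ toFun := fun a => ⟨⟨a.1, Subgroup.mem_sup_left a.2⟩, a.2⟩
         map_one' := rfl
         map_mul' := fun _ _ => rfl } : A →* A.subgroupOf (A ⊔ B))
    let fB : B →* H := g.comp
      ({ toFun := fun a => ⟨⟨a.1, Subgroup.mem_sup_right a.2⟩, a.2⟩
         map_one' := rfl
         map_mul' := fun _ _ => rfl } : B →* B.subgroupOf (A ⊔ B))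
    refine ⟨(Monoid.Coprod.lift fA fB).comp e.symm.toMonoidHom, ?_, ?_⟩
    · rintro ⟨a, ha⟩
      have h1 : e.symm a = Monoid.Coprod.inl ⟨a.1, ha⟩ := by
        rw [MulEquiv.symm_apply_eq]
        apply Subtype.ext
        change a.1 = Monoid.Coprod.lift A.subtype B.subtype _
        rw [Monoid.Coprod.lift_apply_inl]
        rfl
      change Monoid.Coprod.lift fA fB (e.symm a) = _
      rw [h1, Monoid.Coprod.lift_apply_inl]
      rfl
    · rintro ⟨a, ha⟩
      have h1 : e.symm a = Monoid.Coprod.inr ⟨a.1, ha⟩ := by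
        rw [MulEquiv.symm_apply_eq]
        apply Subtype.ext
        change a.1 = Monoid.Coprod.lift A.subtype B.subtype _
        rw [Monoid.Coprod.lift_apply_inr]
        rfl
      change Monoid.Coprod.lift fA fB (e.symm a) = _
      rw [h1, Monoid.Coprod.lift_apply_inr]
      rfl

/-- **generating pairs** -/
theorem gen_pair_sub (hf : IsFreeProd A B) (hB : B ≠ ⊥) {n : Γ} (hn : n ∈ A ⊔ B)
    (hg : A ⊔ B ≤ A ⊔ cj n B) : ∃ a ∈ A, ∃ b ∈ B, n = a * b := by
  let M : Bool → Type := fun i => ↥(cond i A B)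
  let p : Monoid.CoprodI M →* Monoid.Coprod A B := Monoid.CoprodI.lift (fun i =>
    Bool.rec (motive := fun i => M i →* Monoid.Coprod A B)
      (Monoid.Coprod.inr : B →* Monoid.Coprod A B) (Monoid.Coprod.inl : A →* Monoid.Coprod A B) i)
  let q : Monoid.Coprod A B →* Monoid.CoprodI M := Monoid.Coprod.lift
    (Monoid.CoprodI.of (M := M) (i := true)) (Monoid.CoprodI.of (M := M) (i := false))
  have hpt : ∀ a : A, p (Monoid.CoprodI.of (M := M) (i := true) a) = Monoid.Coprod.inl a :=
    fun a => Monoid.CoprodI.lift_of _ _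
  have hpf : ∀ a : B, p (Monoid.CoprodI.of (M := M) (i := false) a) = Monoid.Coprod.inr a :=
    fun a => Monoid.CoprodI.lift_of _ _
  have hqp : q.comp p = MonoidHom.id _ := by
    apply Monoid.CoprodI.ext_hom
    intro i
    cases i with
    | true =>
      ext a
      change q (p (Monoid.CoprodI.of (M := M) (i := true) a)) = _
      rw [hpt]
      exact Monoid.Coprod.lift_apply_inl _ _ _
    | false =>
      ext a
      change q (p (Monoid.CoprodI.of (M := M) (i := false) a)) = _
      rw [hpf]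
      exact Monoid.Coprod.lift_apply_inr _ _ _
  have hpinj : Function.Injective p := by
    intro x y hxy
    have h1 := congrArg q hxy
    change (q.comp p) x = (q.comp p) y at h1
    rwa [hqp] at h1
  have hpsurj : ∀ y, ∃ x, p x = y := by
    intro y
    induction y using Monoid.Coprod.induction_on with
    | inl a => exact ⟨_, hpt a⟩
    | inr b => exact ⟨_, hpf b⟩
    | mul s t hs ht =>
      obtain ⟨s', rfl⟩ := hs
      obtain ⟨t', rfl⟩ := ht
      exact ⟨s' * t', map_mul _ _ _⟩
  let ψ : Monoid.CoprodI M →* Γ := (Monoid.Coprod.lift A.subtype B.subtype).comp p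
  have hψinj : Function.Injective ψ := hf.comp hpinj
  have hψt : ∀ a : A, ψ (Monoid.CoprodI.of (M := M) (i := true) a) = a := by
    intro a
    change Monoid.Coprod.lift A.subtype B.subtype
      (p (Monoid.CoprodI.of (M := M) (i := true) a)) = a
    rw [hpt, Monoid.Coprod.lift_apply_inl]
    rfl
  have hψf : ∀ a : B, ψ (Monoid.CoprodI.of (M := M) (i := false) a) = a := by
    intro a
    change Monoid.Coprod.lift A.subtype B.subtype
      (p (Monoid.CoprodI.of (M := M) (i := false) a)) = a
    rw [hpf, Monoid.Coprod.lift_apply_inr]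
    rfl
  obtain ⟨x0, hx0⟩ := exists_word hn
  obtain ⟨x, hx⟩ := hpsurj x0
  have hψx : ψ x = n := by
    change Monoid.Coprod.lift A.subtype B.subtype (p x) = n
    rw [hx, hx0]
  have hgen : A ⊔ cj n B ≤ (ψ.comp (twist x)).range := by
    rw [sup_le_iff]
    constructor
    · intro a ha
      refine ⟨Monoid.CoprodI.of (M := M) (i := true) ⟨a, ha⟩, ?_⟩
      change ψ (twist x (Monoid.CoprodI.of (M := M) (i := true) ⟨a, ha⟩)) = a
      rw [twist_true]
      exact hψt ⟨a, ha⟩
    · intro b hb
      rw [mem_cj] at hb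
      refine ⟨Monoid.CoprodI.of (M := M) (i := false) ⟨n⁻¹ * b * n, hb⟩, ?_⟩
      change ψ (twist x (Monoid.CoprodI.of (M := M) (i := false) ⟨n⁻¹ * b * n, hb⟩)) = b
      rw [twist_false, map_mul, map_mul, map_inv, hψx]
      rw [show ψ (Monoid.CoprodI.of (M := M) (i := false) ⟨n⁻¹ * b * n, hb⟩) = n⁻¹ * b * n from
        hψf ⟨n⁻¹ * b * n, hb⟩]
      group
  obtain ⟨b0, hb1⟩ := Subgroup.ne_bot_iff_exists_ne_one.1 hB
  obtain ⟨a, b, hab⟩ := gen_pair (M := M) x ⟨b0, hb1⟩ (by
    intro y
    have hy : ψ y ∈ A ⊔ B := by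
      rw [← lift_range]
      exact ⟨p y, rfl⟩
    obtain ⟨t, ht⟩ := hgen (hg hy)
    exact ⟨t, hψinj ht⟩)
  refine ⟨(a : A), (a : A).2, (b : B), (b : B).2, ?_⟩
  rw [← hψx, hab, map_mul]
  rw [show ψ (Monoid.CoprodI.of (M := M) (i := true) a) = (a : A) from hψt a,
    show ψ (Monoid.CoprodI.of (M := M) (i := false) b) = (b : B) from hψf b]

end

end Q171.NF
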