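import Pool.Agent.Q171.NF.Aut

/-!
# The group of the automorphisms of a free product which permute the factors up to conjugation
-/

set_option autoImplicit false

namespace Q171.NF

open Pool.Agent.Y110.FJ (Amg ClosedE)
open Q27.FJT SimpleGraph

/-- the holomorph of a group -/
abbrev Hol (A : Type) [Group A] : Type := A ⋊[MonoidHom.id (MulAut A)] MulAut A

/-- `φ` maps `P` onto a conjugate of `Q` -/
def ToConj {G : Type} [Group G] (φ : MulAut G) (P Q : Subgroup G) : Prop :=
  ∃ x : G, P.map φ.toMonoidHom = cj x Q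

section

variable {G : Type} [Group G]

theorem map_cj (φ : MulAut G) (x : G) (P : Subgroup G) :
    (cj x P).map φ.toMonoidHom = cj (φ x) (P.map φ.toMonoidHom) := by
  unfold cj
  rw [Subgroup.map_map, Subgroup.map_map]
  congr 1
  ext y
  change φ (x * y * x⁻¹) = φ x * φ y * (φ x)⁻¹
  rw [map_mul, map_mul, map_inv]

theorem map_mul_aut (φ ψ : MulAut G) (P : Subgroup G) :
    P.map (φ * ψ).toMonoidHom = (P.map ψ.toMonoidHom).map φ.toMonoidHom := by
  rw [Subgroup.map_map]
  rfl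

theorem ToConj.mul {φ ψ : MulAut G} {P Q R : Subgroup G} (h1 : ToConj ψ P Q)
    (h2 : ToConj φ Q R) : ToConj (φ * ψ) P R := by
  obtain ⟨x, hx⟩ := h1
  obtain ⟨y, hy⟩ := h2
  refine ⟨φ x * y, ?_⟩
  rw [map_mul_aut, hx, map_cj, hy, cj_mul]

theorem ToConj.inv {φ : MulAut G} {P Q : Subgroup G} (h1 : ToConj φ P Q) : ToConj φ⁻¹ Q P := by
  obtain ⟨x, hx⟩ := h1
  refine ⟨φ⁻¹ x⁻¹, ?_⟩
  have h2 : Q = cj x⁻¹ (P.map φ.toMonoidHom) := by
    rw [hx, ← cj_mul, inv_mul_cancel, cj_one]
  rw [h2, map_cj, ← map_mul_aut, inv_mul_cancel]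
  congr 1
  exact Subgroup.map_id P

theorem ToConj.one (P : Subgroup G) : ToConj 1 P P := ⟨1, by
  rw [cj_one]
  exact Subgroup.map_id P⟩

end

section

variable (A B : Type) [Group A] [Group B]

/-- the automorphisms of the free product of `A` and `B` which permute the conjugacy classes of the
two factors -/
def FacAut : Subgroup (MulAut (Monoid.Coprod A B)) where
  carrier := {φ | (ToConj φ (A0 A B) (A0 A B) ∧ ToConj φ (B0 A B) (B0 A B)) ∨
    (ToConj φ (A0 A B) (B0 A B) ∧ ToConj φ (B0 A B) (A0 A B))}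
  one_mem' := Or.inl ⟨ToConj.one _, ToConj.one _⟩
  mul_mem' := by
    rintro φ ψ (⟨h1, h2⟩ | ⟨h1, h2⟩) (⟨h3, h4⟩ | ⟨h3, h4⟩)
    · exact Or.inl ⟨h3.mul h1, h4.mul h2⟩
    · exact Or.inr ⟨h3.mul h2, h4.mul h1⟩
    · exact Or.inr ⟨h3.mul h1, h4.mul h2⟩
    · exact Or.inl ⟨h3.mul h2, h4.mul h1⟩
  inv_mem' := by
    rintro φ (⟨h1, h2⟩ | ⟨h1, h2⟩)
    · exact Or.inl ⟨h1.inv, h2.inv⟩
    · exact Or.inr ⟨h2.inv, h1.inv⟩

variable {A B}

theorem conj_mem (x : Monoid.Coprod A B) : MulAut.conj x ∈ FacAut A B :=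
  Or.inl ⟨⟨x, rfl⟩, ⟨x, rfl⟩⟩

/-- the inner automorphisms -/
def inn : Monoid.Coprod A B →* FacAut A B := MulAut.conj.codRestrict _ conj_mem

theorem inn_inj [Nontrivial A] [Nontrivial B] :
    Function.Injective (inn : Monoid.Coprod A B →* FacAut A B) := by
  intro x y h
  exact conj_inj (congrArg Subtype.val h)

theorem cj_map_inn (φ : FacAut A B) (P : Subgroup (Monoid.Coprod A B)) :
    cj φ (P.map inn) = (P.map φ.1.toMonoidHom).map inn := by
  unfold cj
  rw [Subgroup.map_map, Subgroup.map_map]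
  congr 1
  refine MonoidHom.ext fun x => Subtype.ext ?_
  change φ.1 * MulAut.conj x * φ.1⁻¹ = MulAut.conj (φ.1 x)
  rw [aut_conj, mul_inv_cancel_right]

theorem map_inn_cj (x : Monoid.Coprod A B) (P : Subgroup (Monoid.Coprod A B)) :
    (cj x P).map inn = cj (inn x) (P.map inn) := (cj_map_inn (inn x) P).symm

theorem iA_eq : iA (inn : Monoid.Coprod A B →* FacAut A B) = (A0 A B).map inn :=
  (MonoidHom.map_range _ _).symm

theorem iB_eq : iB (inn : Monoid.Coprod A B →* FacAut A B) = (B0 A B).map inn :=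
  (MonoidHom.map_range _ _).symm

instance normal_inn : (iA (inn : Monoid.Coprod A B →* FacAut A B) ⊔ iB inn).Normal := by
  rw [iAB]
  constructor
  rintro _ ⟨x, rfl⟩ φ
  refine ⟨φ.1 x, ?_⟩
  apply Subtype.ext
  change MulAut.conj (φ.1 x) = φ.1 * MulAut.conj x * φ.1⁻¹
  rw [aut_conj, mul_inv_cancel_right]

theorem perm_inn : Perm (iA (inn : Monoid.Coprod A B →* FacAut A B)) (iB inn) := by
  intro φ
  have key : ∀ P Q : Subgroup (Monoid.Coprod A B), ToConj φ.1 P Q →
      ∃ n ∈ iA (inn : Monoid.Coprod A B →* FacAut A B) ⊔ iB inn,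
        cj φ (P.map inn) = cj n (Q.map inn) := by
    rintro P Q ⟨x, hx⟩
    refine ⟨inn x, by rw [iAB]; exact ⟨x, rfl⟩, ?_⟩
    rw [cj_map_inn, hx, map_inn_cj]
  rw [iA_eq, iB_eq]
  rw [iA_eq, iB_eq] at key
  rcases φ.2 with ⟨h1, h2⟩ | ⟨h1, h2⟩
  · obtain ⟨n, hn, h3⟩ := key _ _ h1
    obtain ⟨m, hm, h4⟩ := key _ _ h2
    exact ⟨⟨n, hn, Or.inl h3⟩, ⟨m, hm, Or.inr h4⟩⟩
  · obtain ⟨n, hn, h3⟩ := key _ _ h1
    obtain ⟨m, hm, h4⟩ := key _ _ h2
    exact ⟨⟨n, hn, Or.inr h3⟩, ⟨m, hm, Or.inl h4⟩⟩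

/-- the automorphisms which preserve the first factor -/
def JA : Hol A × MulAut B →* MulAut (Monoid.Coprod A B) where
  toFun p := MulAut.conj (Monoid.Coprod.inl p.1.left) * mp (p.1.right, p.2)
  map_one' := by
    change MulAut.conj (Monoid.Coprod.inl 1) * mp 1 = 1
    rw [map_one, map_one, map_one, one_mul]
  map_mul' p q := by
    have h1 := aut_conj (mp (p.1.right, p.2)) (Monoid.Coprod.inl q.1.left)
    rw [mp_inl] at h1
    change MulAut.conj (Monoid.Coprod.inl (p.1.left * p.1.right q.1.left)) *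
      mp ((p.1.right, p.2) * (q.1.right, q.2)) = _
    rw [map_mul, map_mul, map_mul, mul_assoc, ← mul_assoc (MulAut.conj _) (mp _) (mp _), ← h1]
    simp only [mul_assoc]

/-- the automorphisms which preserve the second factor -/
def JB : Hol B × MulAut A →* MulAut (Monoid.Coprod A B) where
  toFun p := MulAut.conj (Monoid.Coprod.inr p.1.left) * mp (p.2, p.1.right)
  map_one' := by
    change MulAut.conj (Monoid.Coprod.inr 1) * mp 1 = 1
    rw [map_one, map_one, map_one, one_mul]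
  map_mul' p q := by
    have h1 := aut_conj (mp (p.2, p.1.right)) (Monoid.Coprod.inr q.1.left)
    rw [mp_inr] at h1
    change MulAut.conj (Monoid.Coprod.inr (p.1.left * p.1.right q.1.left)) *
      mp ((p.2, p.1.right) * (q.2, q.1.right)) = _
    rw [map_mul, map_mul, map_mul, mul_assoc, ← mul_assoc (MulAut.conj _) (mp _) (mp _), ← h1]
    simp only [mul_assoc]

theorem mp_map_A (p : MulAut A × MulAut B) : (A0 A B).map (mp p).toMonoidHom = A0 A B := by
  ext x
  constructor
  · rintro ⟨_, ⟨a, rfl⟩, rfl⟩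
    exact ⟨p.1 a, rfl⟩
  · rintro ⟨a, rfl⟩
    refine ⟨_, ⟨p.1⁻¹ a, rfl⟩, ?_⟩
    change Monoid.Coprod.inl (p.1 (p.1⁻¹ a)) = _
    rw [MulAut.apply_inv_self]

theorem mp_map_B (p : MulAut A × MulAut B) : (B0 A B).map (mp p).toMonoidHom = B0 A B := by
  ext x
  constructor
  · rintro ⟨_, ⟨a, rfl⟩, rfl⟩
    exact ⟨p.2 a, rfl⟩
  · rintro ⟨a, rfl⟩
    refine ⟨_, ⟨p.2⁻¹ a, rfl⟩, ?_⟩
    change Monoid.Coprod.inr (p.2 (p.2⁻¹ a)) = _
    rw [MulAut.apply_inv_self]

theorem mp_mem (p : MulAut A × MulAut B) : mp p ∈ FacAut A B :=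
  Or.inl ⟨⟨1, by rw [cj_one]; exact mp_map_A p⟩, ⟨1, by rw [cj_one]; exact mp_map_B p⟩⟩

theorem mp_inj : Function.Injective (mp : MulAut A × MulAut B →* MulAut (Monoid.Coprod A B)) := by
  rw [injective_iff_map_eq_one]
  intro p hp
  refine Prod.ext ?_ ?_
  · ext a
    apply Monoid.Coprod.inl_injective (N := B)
    rw [← mp_inl, hp]
    rfl
  · ext b
    apply Monoid.Coprod.inr_injective (M := A)
    rw [← mp_inr, hp]
    rfl

theorem JA_inj [Nontrivial A] [Nontrivial B] :
    Function.Injective (JA : Hol A × MulAut B →* MulAut (Monoid.Coprod A B)) := by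
  rw [injective_iff_map_eq_one]
  intro p hp
  have h1 : (MulAut.conj (Monoid.Coprod.inl p.1.left) : MulAut (Monoid.Coprod A B)) *
      mp (p.1.right, p.2) = 1 := hp
  have h2 : cj (Monoid.Coprod.inl p.1.left) (B0 A B) = B0 A B := by
    have h3 := map_mul_aut (MulAut.conj (Monoid.Coprod.inl p.1.left) : MulAut (Monoid.Coprod A B))
      (mp (p.1.right, p.2)) (B0 A B)
    rw [h1, mp_map_B] at h3
    unfold cj
    rw [← h3]
    exact Subgroup.map_id _
  have h4 := inter0 (A := A) (B := B) (x := Monoid.Coprod.inl p.1.left) ⟨_, rfl⟩ (normB h2)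
  have h5 : p.1.left = 1 := Monoid.Coprod.inl_injective (h4.trans
    (map_one (Monoid.Coprod.inl : A →* Monoid.Coprod A B)).symm)
  rw [h4, map_one, one_mul] at h1
  have h6 := mp_inj (h1.trans (map_one mp).symm)
  have h7 : p.1.right = 1 := congrArg Prod.fst h6
  have h8 : p.2 = 1 := congrArg Prod.snd h6
  exact Prod.ext (SemidirectProduct.ext h5 h7) h8

theorem JB_inj [Nontrivial A] [Nontrivial B] :
    Function.Injective (JB : Hol B × MulAut A →* MulAut (Monoid.Coprod A B)) := by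
  rw [injective_iff_map_eq_one]
  intro p hp
  have h1 : (MulAut.conj (Monoid.Coprod.inr p.1.left) : MulAut (Monoid.Coprod A B)) *
      mp (p.2, p.1.right) = 1 := hp
  have h2 : cj (Monoid.Coprod.inr p.1.left) (A0 A B) = A0 A B := by
    have h3 := map_mul_aut (MulAut.conj (Monoid.Coprod.inr p.1.left) : MulAut (Monoid.Coprod A B))
      (mp (p.2, p.1.right)) (A0 A B)
    rw [h1, mp_map_A] at h3
    unfold cj
    rw [← h3]
    exact Subgroup.map_id _
  have h4 := inter0 (A := A) (B := B) (x := Monoid.Coprod.inr p.1.left) (normA h2) ⟨_, rfl⟩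
  have h5 : p.1.left = 1 := Monoid.Coprod.inr_injective (h4.trans
    (map_one (Monoid.Coprod.inr : B →* Monoid.Coprod A B)).symm)
  rw [h4, map_one, one_mul] at h1
  have h6 := mp_inj (h1.trans (map_one mp).symm)
  have h7 : p.2 = 1 := congrArg Prod.fst h6
  have h8 : p.1.right = 1 := congrArg Prod.snd h6
  exact Prod.ext (SemidirectProduct.ext h5 h8) h7

theorem JA_mem (p : Hol A × MulAut B) : JA p ∈ FacAut A B := mul_mem (conj_mem _) (mp_mem _)

theorem JB_mem (p : Hol B × MulAut A) : JB p ∈ FacAut A B := mul_mem (conj_mem _) (mp_mem _)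

/-- decomposition of the automorphisms which preserve the class of the first factor -/
theorem decomp [Nontrivial A] [Nontrivial B] {φ : FacAut A B}
    (h : φ ∈ pres (iA (inn : Monoid.Coprod A B →* FacAut A B)) (iB inn)) :
    ∃ (x : Monoid.Coprod A B) (p : MulAut A × MulAut B), φ.1 = MulAut.conj x * mp p := by
  obtain ⟨n, hn, h1, h2⟩ := exists_edge (isFreeProd_of_inj _ inn_inj) (iA_ne_bot _ inn_inj)
    (iB_ne_bot _ inn_inj) perm_inn h
  rw [iAB] at hn
  obtain ⟨x, rfl⟩ := hn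
  rw [iA_eq, cj_map_inn] at h1
  rw [iB_eq, cj_map_inn] at h2
  obtain ⟨p, hp⟩ := exists_mp (Subgroup.map_injective inn_inj h1)
    (Subgroup.map_injective inn_inj h2)
  refine ⟨x⁻¹, p, ?_⟩
  rw [hp]
  change φ.1 = MulAut.conj x⁻¹ * (MulAut.conj x * φ.1)
  rw [map_inv, inv_mul_cancel_left]

theorem main_A {C : ∀ (G : Type) [Group G], Prop} (hC : ClosedE C) [Nontrivial A] [Nontrivial B]
    (h1 : C (Hol A)) (h2 : C (MulAut B)) :
    C (Subgroup.normalizer ((iA (inn : Monoid.Coprod A B →* FacAut A B)) : Set (FacAut A B))) := by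
  have hex : ∀ s : Subgroup.normalizer
      ((iA (inn : Monoid.Coprod A B →* FacAut A B)) : Set (FacAut A B)),
      ∃ p, JA p = s.1.1 := by
    intro s
    have hs := mem_normalizer_iff_cj.1 s.2
    obtain ⟨x, p, hp⟩ := decomp (pres_normalizer (B := iB inn) hs)
    have hs' : cj s.1 ((A0 A B).map inn) = (A0 A B).map inn := by rw [← iA_eq]; exact hs
    rw [cj_map_inn] at hs'
    have h3 := Subgroup.map_injective inn_inj hs'
    rw [hp, map_mul_aut, mp_map_A] at h3
    obtain ⟨a, ha⟩ := normA (x := x) h3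
    refine ⟨(⟨a, p.1⟩, p.2), ?_⟩
    rw [hp]
    change MulAut.conj (Monoid.Coprod.inl a) * mp p = _
    rw [ha]
  choose f hf using hex
  let F : Subgroup.normalizer ((iA (inn : Monoid.Coprod A B →* FacAut A B)) : Set (FacAut A B)) →*
      Hol A × MulAut B :=
    { toFun := f
      map_one' := JA_inj (by rw [hf, map_one]; rfl)
      map_mul' := fun s t => JA_inj (by rw [hf, map_mul, hf, hf]; rfl) }
  refine hC.base.of_injective _ _ F ?_ (hC.base.prod _ _ h1 h2)
  intro s t h
  apply Subtype.ext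
  apply Subtype.ext
  rw [← hf, ← hf]
  exact congrArg JA h

theorem main_B {C : ∀ (G : Type) [Group G], Prop} (hC : ClosedE C) [Nontrivial A] [Nontrivial B]
    (h1 : C (Hol B)) (h2 : C (MulAut A)) :
    C (Subgroup.normalizer ((iB (inn : Monoid.Coprod A B →* FacAut A B)) : Set (FacAut A B))) := by
  have hpres : ∀ s : FacAut A B, cj s (iB (inn : Monoid.Coprod A B →* FacAut A B)) = iB inn →
      s ∈ pres (iA (inn : Monoid.Coprod A B →* FacAut A B)) (iB inn) := by
    intro s hs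
    rcases s.2 with ⟨h3, _⟩ | ⟨_, h3⟩
    · obtain ⟨x, hx⟩ := h3
      refine ⟨inn x, by rw [iAB]; exact ⟨x, rfl⟩, ?_⟩
      rw [iA_eq, cj_map_inn, hx, map_inn_cj]
    · exfalso
      obtain ⟨x, hx⟩ := h3
      rw [iB_eq, cj_map_inn] at hs
      have h4 := Subgroup.map_injective inn_inj hs
      rw [hx] at h4
      have hx' : x ∈ A0 A B ⊔ B0 A B := by rw [sup0]; trivial
      have h5 : th (A0 A B) (B0 A B) (vA _ _ ⟨x, hx'⟩) = th (A0 A B) (B0 A B) (vB _ _ 1) := by
        rw [th_A, th_B, OneMemClass.coe_one, cj_one]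
        exact h4
      exact Sum.inl_ne_inr (th_inj (isFreeProd0 A B) (A0_ne_bot A B) (B0_ne_bot A B) h5)
  have hex : ∀ s : Subgroup.normalizer
      ((iB (inn : Monoid.Coprod A B →* FacAut A B)) : Set (FacAut A B)),
      ∃ p, JB p = s.1.1 := by
    intro s
    have hs := mem_normalizer_iff_cj.1 s.2
    obtain ⟨x, p, hp⟩ := decomp (hpres s.1 hs)
    have hs' : cj s.1 ((B0 A B).map inn) = (B0 A B).map inn := by rw [← iB_eq]; exact hs
    rw [cj_map_inn] at hs'
    have h3 := Subgroup.map_injective inn_inj hs'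
    rw [hp, map_mul_aut, mp_map_B] at h3
    obtain ⟨a, ha⟩ := normB (x := x) h3
    refine ⟨(⟨a, p.2⟩, p.1), ?_⟩
    rw [hp]
    change MulAut.conj (Monoid.Coprod.inr a) * mp p = _
    rw [ha]
  choose f hf using hex
  let F : Subgroup.normalizer ((iB (inn : Monoid.Coprod A B →* FacAut A B)) : Set (FacAut A B)) →*
      Hol B × MulAut A :=
    { toFun := f
      map_one' := JB_inj (by rw [hf, map_one]; rfl)
      map_mul' := fun s t => JB_inj (by rw [hf, map_mul, hf, hf]; rfl) }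
  refine hC.base.of_injective _ _ F ?_ (hC.base.prod _ _ h1 h2)
  intro s t h
  apply Subtype.ext
  apply Subtype.ext
  rw [← hf, ← hf]
  exact congrArg JB h

/-- **automorphisms of free products** -/
theorem main_aut {C : ∀ (G : Type) [Group G], Prop} (hC : ClosedE C) (A B : Type) [Group A]
    [Group B] [Nontrivial A] [Nontrivial B] : C (FacAut A B) ↔ C (Hol A) ∧ C (Hol B) := by
  constructor
  · intro h
    constructor
    · refine hC.base.of_injective _ _ ((JA.codRestrict _ JA_mem).comp (MonoidHom.inl (Hol A)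
        (MulAut B)) : Hol A →* FacAut A B) ?_ h
      intro s t hst
      have h1 := JA_inj (congrArg Subtype.val hst)
      exact congrArg Prod.fst h1
    · refine hC.base.of_injective _ _ ((JB.codRestrict _ JB_mem).comp (MonoidHom.inl (Hol B)
        (MulAut A)) : Hol B →* FacAut A B) ?_ h
      intro s t hst
      have h1 := JB_inj (congrArg Subtype.val hst)
      exact congrArg Prod.fst h1
  · rintro ⟨h1, h2⟩
    have h3 : C (MulAut A) := hC.base.of_injective _ _ (SemidirectProduct.inr : MulAut A →* Hol A)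
      SemidirectProduct.inr_injective h1
    have h4 : C (MulAut B) := hC.base.of_injective _ _ (SemidirectProduct.inr : MulAut B →* Hol B)
      SemidirectProduct.inr_injective h2
    exact (main hC (isFreeProd_of_inj _ inn_inj) (iA_ne_bot _ inn_inj)
      (iB_ne_bot _ inn_inj) perm_inn).2 ⟨main_A hC h1 h4, main_B hC h2 h3⟩

end

end Q171.NF
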