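import Pool.Agent.Q171.NF.Tree

/-!
# Groups with a normal subgroup which is a free product of two subgroups: the main theorem
-/

set_option autoImplicit false

namespace Q171.NF

open Pool.Agent.Y110.FJ (Amg ClosedE)
open Q27.FJT SimpleGraph

section

variable {C : ∀ (G : Type) [Group G], Prop} {Γ : Type} [Group Γ] {A B : Subgroup Γ}

/-- the elements which map `A` to a conjugate of `A` -/
def pres (A B : Subgroup Γ) [hN : (A ⊔ B).Normal] : Subgroup Γ where
  carrier := {g | ∃ n ∈ A ⊔ B, cj g A = cj n A}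
  one_mem' := ⟨1, one_mem _, rfl⟩
  mul_mem' := by
    rintro g h ⟨m, hm, hgm⟩ ⟨n, hn, hhn⟩
    refine ⟨g * n * g⁻¹ * m, mul_mem (hN.conj_mem _ hn g) hm, ?_⟩
    rw [cj_mul, hhn, cj_mul, ← hgm, ← cj_mul, ← cj_mul]
    congr 1
    group
  inv_mem' := by
    rintro g ⟨m, hm, hgm⟩
    refine ⟨g⁻¹ * m⁻¹ * g, ?_, ?_⟩
    · have h1 := hN.conj_mem _ (inv_mem hm) g⁻¹
      rwa [inv_inv] at h1
    · apply cj_inj (g := g)
      rw [← cj_mul, ← cj_mul, mul_inv_cancel, cj_one]
      have h2 : g * (g⁻¹ * m⁻¹ * g) = m⁻¹ * g := by group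
      rw [h2, cj_mul, hgm, ← cj_mul, inv_mul_cancel, cj_one]

theorem pres_normalizer [(A ⊔ B).Normal] {s : Γ} (hs : cj s A = A) : s ∈ pres A B :=
  ⟨1, one_mem _, by rw [hs, cj_one]⟩

theorem le_pres [(A ⊔ B).Normal] : A ⊔ B ≤ pres A B := fun n hn => ⟨n, hn, rfl⟩

theorem pres_index [hN : (A ⊔ B).Normal] (hP : Perm A B) : (pres A B).FiniteIndex := by
  by_cases h0 : ∃ g0, g0 ∉ pres A B
  · obtain ⟨g0, hg0⟩ := h0
    have key : ∀ g, g ∉ pres A B → g0⁻¹ * g ∈ pres A B := by
      intro g hg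
      obtain ⟨n, hn, h1⟩ := (hP g).1
      obtain ⟨m, hm, h2⟩ := (hP g0).1
      rcases h1 with h1 | h1
      · exact (hg ⟨n, hn, h1⟩).elim
      rcases h2 with h2 | h2
      · exact (hg0 ⟨m, hm, h2⟩).elim
      have h3 : cj g A = cj (n * m⁻¹ * g0) A := by
        rw [cj_mul, h2, ← cj_mul, h1]
        congr 1
        group
      have h4 : cj (g⁻¹ * (n * m⁻¹ * g0)) A = A := by
        rw [cj_mul, ← h3, ← cj_mul, inv_mul_cancel, cj_one]
      have h5 := pres_normalizer (B := B) h4
      have h6 : g0⁻¹ * (n * m⁻¹) * g0 ∈ pres A B := by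
        apply le_pres
        have h7 := hN.conj_mem _ (mul_mem hn (inv_mem hm)) g0⁻¹
        rwa [inv_inv] at h7
      have h8 := mul_mem h6 (inv_mem h5)
      have h9 : g0⁻¹ * (n * m⁻¹) * g0 * (g⁻¹ * (n * m⁻¹ * g0))⁻¹ = g0⁻¹ * g := by
        group
      rwa [h9] at h8
    have hfin : Finite (Γ ⧸ pres A B) := by
      refine Finite.of_surjective (fun b : Bool => (cond b (1 : Γ) g0 : Γ ⧸ pres A B)) ?_
      intro q
      induction q using QuotientGroup.induction_on with
      | H g =>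
        by_cases hg : g ∈ pres A B
        · refine ⟨true, ?_⟩
          change ((1 : Γ) : Γ ⧸ pres A B) = g
          rw [QuotientGroup.eq, inv_one, one_mul]
          exact hg
        · refine ⟨false, ?_⟩
          change (g0 : Γ ⧸ pres A B) = g
          rw [QuotientGroup.eq]
          exact key g hg
    exact Subgroup.finiteIndex_of_finite_quotient
  · have h1 : pres A B = ⊤ := by
      rw [eq_top_iff]
      intro g _
      by_contra hg
      exact h0 ⟨g, hg⟩
    rw [h1]
    infer_instance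

/-- the edge group -/
theorem exists_edge [hN : (A ⊔ B).Normal] (hf : IsFreeProd A B) (hA : A ≠ ⊥) (hB : B ≠ ⊥)
    (hP : Perm A B) {s : Γ} (hs : s ∈ pres A B) :
    ∃ n ∈ A ⊔ B, cj (n * s) A = A ∧ cj (n * s) B = B := by
  obtain ⟨m, hm, h1⟩ := hs
  obtain ⟨u, hu⟩ := perm_range hP s (vB _ _ 1)
  have h2 : th A B (vA _ _ ⟨m, hm⟩) = cj s (th A B (vA _ _ 1)) := by
    rw [th_A, th_A, OneMemClass.coe_one, cj_one]
    exact h1.symm
  obtain ⟨n, hn⟩ := adj_perm hf hA hB s (adj_AB 1) h2 hu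
  rcases hn with ⟨hn1, hn2⟩ | ⟨_, hn2⟩
  · have h3 := congrArg (th A B) hn1
    rw [th_A, th_A] at h3
    have h3' : cj s A = cj (n : Γ) A := by rw [← h3]; exact h1
    rw [hn2, th_B, th_B, OneMemClass.coe_one, cj_one] at hu
    refine ⟨(n : Γ)⁻¹, inv_mem n.2, ?_, ?_⟩
    · rw [cj_mul, h3', ← cj_mul, inv_mul_cancel, cj_one]
    · rw [cj_mul, ← hu, ← cj_mul, inv_mul_cancel, cj_one]
  · exact (Sum.inl_ne_inr hn2).elim

/-- the group is in the class if it does not interchange the factors -/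
theorem main_pres (hC : ClosedE C) [hN : (A ⊔ B).Normal] (hf : IsFreeProd A B) (hA : A ≠ ⊥)
    (hB : B ≠ ⊥) (hP : Perm A B) (hCA : C (Subgroup.normalizer (A : Set Γ)))
    (hCB : C (Subgroup.normalizer (B : Set Γ))) : C (pres A B) := by
  let _ := act hP
  have hdef : ∀ (g : Γ) (P : CV A B), (g • P).1 = cj g P.1 := fun _ _ => rfl
  have hNS : ((A ⊔ B).subgroupOf (pres A B)).Normal := inferInstance
  have hthin := th_inj hf hA hB
  -- vertex groups
  have hst : ∀ P : CV A B, C (MulAction.stabilizer (pres A B) P) := by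
    have key : ∀ (g : Γ) (P0 : Subgroup Γ) (P : CV A B), P.1 = cj g P0 →
        C (Subgroup.normalizer (P0 : Set Γ)) → C (MulAction.stabilizer (pres A B) P) := by
      intro g P0 P hP0 hC0
      let j : MulAction.stabilizer (pres A B) P →* Subgroup.normalizer (P0 : Set Γ) :=
        { toFun := fun s => ⟨g⁻¹ * ((s : pres A B) : Γ) * g, by
            rw [mem_normalizer_iff_cj, cj_mul, cj_mul, ← hP0]
            have h1 : cj ((s : pres A B) : Γ) P.1 = P.1 := congrArg Subtype.val s.2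
            rw [h1, hP0, ← cj_mul, inv_mul_cancel, cj_one]⟩
          map_one' := by
            apply Subtype.ext
            change g⁻¹ * 1 * g = 1
            group
          map_mul' := by
            intro s t
            apply Subtype.ext
            change g⁻¹ * (((s : pres A B) : Γ) * ((t : pres A B) : Γ)) * g =
              g⁻¹ * ((s : pres A B) : Γ) * g * (g⁻¹ * ((t : pres A B) : Γ) * g)
            group }
      refine hC.base.of_injective _ _ j ?_ hC0
      intro s t hst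
      apply Subtype.ext
      apply Subtype.ext
      have h1 : g⁻¹ * ((s : pres A B) : Γ) * g = g⁻¹ * ((t : pres A B) : Γ) * g :=
        congrArg Subtype.val hst
      exact mul_left_cancel (mul_right_cancel h1)
    intro P
    obtain ⟨v, hv⟩ := P.2
    rcases vertex_cases v with ⟨n, rfl⟩ | ⟨n, rfl⟩
    · exact key n A P (by rw [← hv, th_A]) hCA
    · exact key n B P (by rw [← hv, th_B]) hCB
  -- the quotient
  have hQ : C ((pres A B) ⧸ ((A ⊔ B).subgroupOf (pres A B))) := by
    let E : Subgroup Γ := Subgroup.normalizer (A : Set Γ) ⊓ Subgroup.normalizer (B : Set Γ)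
    have hES : ∀ e ∈ E, e ∈ pres A B := fun e he =>
      pres_normalizer (mem_normalizer_iff_cj.1 he.1)
    let π : E →* (pres A B) ⧸ ((A ⊔ B).subgroupOf (pres A B)) :=
      (QuotientGroup.mk' _).comp (Subgroup.inclusion hES)
    have hπ : Function.Bijective π := by
      constructor
      · rw [injective_iff_map_eq_one]
        intro e he
        have h1 : ((Subgroup.inclusion hES e : pres A B) : Γ) ∈ A ⊔ B := by
          have h2 := (QuotientGroup.eq_one_iff (Subgroup.inclusion hES e)).1 he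
          exact h2
        have h1' : (e : Γ) ∈ A ⊔ B := h1
        apply Subtype.ext
        have h3 : (⟨e, h1'⟩ : ↥(A ⊔ B)) • vA (A.subgroupOf (A ⊔ B)) (B.subgroupOf (A ⊔ B)) 1 =
            vA _ _ 1 := by
          apply hthin
          rw [th_smul, th_A, OneMemClass.coe_one, cj_one]
          exact mem_normalizer_iff_cj.1 e.2.1
        have h4 : (⟨e, h1'⟩ : ↥(A ⊔ B)) • vB (A.subgroupOf (A ⊔ B)) (B.subgroupOf (A ⊔ B)) 1 =
            vB _ _ 1 := by
          apply hthin
          rw [th_smul, th_B, OneMemClass.coe_one, cj_one]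
          exact mem_normalizer_iff_cj.1 e.2.2
        exact eq_one_of_mem hf (Sum.inl_ne_inr : vA (A.subgroupOf (A ⊔ B))
          (B.subgroupOf (A ⊔ B)) 1 ≠ vB _ _ 1) ((mem_th _ _).2 h3) ((mem_th _ _).2 h4)
      · intro q
        induction q using QuotientGroup.induction_on with
        | H s =>
          obtain ⟨n, hn, h1, h2⟩ := exists_edge hf hA hB hP s.2
          refine ⟨⟨n * s, mem_normalizer_iff_cj.2 h1, mem_normalizer_iff_cj.2 h2⟩, ?_⟩
          refine (QuotientGroup.eq (s := (A ⊔ B).subgroupOf (pres A B))).2 ?_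
          rw [Subgroup.mem_subgroupOf]
          change (n * (s : Γ))⁻¹ * s ∈ A ⊔ B
          have h3 := hN.conj_mem _ (inv_mem hn) (s : Γ)⁻¹
          have h4 : (s : Γ)⁻¹ * n⁻¹ * (s : Γ)⁻¹⁻¹ = (n * (s : Γ))⁻¹ * s := by group
          rwa [h4] at h3
    refine hC.base.of_injective _ _ (MulEquiv.ofBijective π hπ).symm.toMonoidHom
      (MulEquiv.ofBijective π hπ).symm.injective ?_
    exact hC.base.of_injective _ _ (Subgroup.inclusion (inf_le_left :
      E ≤ Subgroup.normalizer (A : Set Γ))) (Subgroup.inclusion_injective _) hCA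
  refine Q9.FJT.tree_edge (QuotientGroup.mk' ((A ⊔ B).subgroupOf (pres A B))) hC hQ
    (CT_isTree hf hA hB) (fun g P Q h => act_adj hf hA hB hP (g : Γ) P Q h) ?_ ?_ hst
  · rintro g P Q ⟨_, u, v, huv, h2, h3⟩ ⟨h4, h5⟩
    -- types are preserved
    obtain ⟨m, hm, hg⟩ := g.2
    have key : ∀ n : ↥(A ⊔ B), cj (g : Γ) (th A B (vA _ _ n)) ≠ th A B (vB _ _ n) := by
      intro n h6
      have h7 : cj (g : Γ) (th A B (vA _ _ n)) =
          th A B (vA _ _ (⟨g * n * (g : Γ)⁻¹, hN.conj_mem _ n.2 g⟩ * ⟨m, hm⟩)) := by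
        rw [th_A, th_A]
        change _ = cj ((g : Γ) * n * (g : Γ)⁻¹ * m) A
        rw [cj_mul, ← hg, ← cj_mul, ← cj_mul]
        congr 1
        group
      rw [h7] at h6
      exact Sum.inl_ne_inr (hthin h6)
    have h4' : cj (g : Γ) P.1 = Q.1 := congrArg Subtype.val h4
    have h5' : cj (g : Γ) Q.1 = P.1 := congrArg Subtype.val h5
    obtain ⟨n, hn⟩ := huv
    rcases hn with ⟨rfl, rfl⟩ | ⟨rfl, rfl⟩
    · exact key n (by rw [h2, h3, h4'])
    · exact key n (by rw [h2, h3, h5'])
  · rintro g P Q ⟨_, u, v, huv, h2, h3⟩ h4 h5 h6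
    have h7 : (g : Γ) ∈ A ⊔ B := (QuotientGroup.eq_one_iff g).1 h6
    have h4' : cj (g : Γ) P.1 = P.1 := congrArg Subtype.val h4
    have h5' : cj (g : Γ) Q.1 = Q.1 := congrArg Subtype.val h5
    apply Subtype.ext
    have h8 : (⟨g, h7⟩ : ↥(A ⊔ B)) • u = u := by
      apply hthin
      rw [th_smul, h2]
      exact h4'
    have h9 : (⟨g, h7⟩ : ↥(A ⊔ B)) • v = v := by
      apply hthin
      rw [th_smul, h3]
      exact h5'
    exact eq_one_of_mem hf huv.ne ((mem_th _ _).2 h8) ((mem_th _ _).2 h9)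

/-- **main theorem** -/
theorem main (hC : ClosedE C) [hN : (A ⊔ B).Normal] (hf : IsFreeProd A B) (hA : A ≠ ⊥)
    (hB : B ≠ ⊥) (hP : Perm A B) :
    C Γ ↔ C (Subgroup.normalizer (A : Set Γ)) ∧ C (Subgroup.normalizer (B : Set Γ)) := by
  constructor
  · intro h
    exact ⟨hC.base.of_injective _ _ (Subgroup.subtype _) (Subgroup.subtype_injective _) h,
      hC.base.of_injective _ _ (Subgroup.subtype _) (Subgroup.subtype_injective _) h⟩
  · rintro ⟨h1, h2⟩
    exact hC.base.finiteIndex _ (pres A B) (pres_index hP) (main_pres hC hf hA hB hP h1 h2)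

end

end Q171.NF
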