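import Pool.Agent.Q171.NF.Base
import Pool.Agent.Q9.FJT.TreeA

/-!
# Groups with a normal subgroup which is a free product of two subgroups
-/

set_option autoImplicit false

namespace Q171.NF

open Pool.Agent.Y110.FJ (Amg ClosedE)
open Q27.FJT SimpleGraph

/-- an automorphism of a tree which fixes two vertices fixes an edge -/
theorem fixed_edge {V : Type} {T : SimpleGraph V} (hT : T.IsTree) (f : V → V)
    (hf : Function.Injective f) (hadj : ∀ a b, T.Adj a b → T.Adj (f a) (f b)) {u v : V}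
    (hu : f u = u) (hv : f v = v) (huv : u ≠ v) : ∃ w, T.Adj u w ∧ f w = w := by
  classical
  obtain ⟨p, hp, huniq⟩ := hT.existsUnique_path u v
  let F : T →g T := ⟨f, fun h => hadj _ _ h⟩
  have h1 : ((p.map F).copy hu hv).IsPath := by
    rw [SimpleGraph.Walk.isPath_copy]
    exact SimpleGraph.Walk.IsPath.map hf hp
  have h2 := huniq _ h1
  have hnil : ¬ p.Nil := by
    intro h
    exact huv h.eq
  refine ⟨p.snd, p.adj_snd hnil, ?_⟩
  have h3 : ((p.map F).copy hu hv).snd = p.snd := by rw [h2]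
  simp only [SimpleGraph.Walk.snd] at h3 ⊢
  rw [SimpleGraph.Walk.getVert_copy, SimpleGraph.Walk.getVert_map] at h3
  exact h3

section

variable {Γ : Type} [Group Γ] {A B : Subgroup Γ}

/-- the vertices of the tree -/
abbrev Vt (A B : Subgroup Γ) : Type := VV (A.subgroupOf (A ⊔ B)) (B.subgroupOf (A ⊔ B))

/-- the subgroup which belongs to a vertex -/
def th (A B : Subgroup Γ) : Vt A B → Subgroup Γ :=
  Sum.elim (fun q => Quotient.liftOn' q (fun n => cj (n : Γ) A) (by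
    intro m n hmn
    rw [QuotientGroup.leftRel_apply, Subgroup.mem_subgroupOf] at hmn
    have h1 : (n : Γ) = m * ((m⁻¹ * n : ↥(A ⊔ B)) : Γ) := by
      change (n : Γ) = m * ((m : Γ)⁻¹ * n)
      group
    change cj (m : Γ) A = cj (n : Γ) A
    rw [h1, cj_mul, cj_self hmn]))
   (fun q => Quotient.liftOn' q (fun n => cj (n : Γ) B) (by
    intro m n hmn
    rw [QuotientGroup.leftRel_apply, Subgroup.mem_subgroupOf] at hmn
    have h1 : (n : Γ) = m * ((m⁻¹ * n : ↥(A ⊔ B)) : Γ) := by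
      change (n : Γ) = m * ((m : Γ)⁻¹ * n)
      group
    change cj (m : Γ) B = cj (n : Γ) B
    rw [h1, cj_mul, cj_self hmn]))

theorem th_A (n : ↥(A ⊔ B)) : th A B (vA _ _ n) = cj (n : Γ) A := rfl

theorem th_B (n : ↥(A ⊔ B)) : th A B (vB _ _ n) = cj (n : Γ) B := rfl

theorem th_smul (m : ↥(A ⊔ B)) (v : Vt A B) : th A B (m • v) = cj (m : Γ) (th A B v) := by
  rcases vertex_cases v with ⟨n, rfl⟩ | ⟨n, rfl⟩
  · rw [smul_vA, th_A, th_A, ← cj_mul]; rfl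
  · rw [smul_vB, th_B, th_B, ← cj_mul]; rfl

theorem mem_th (x : ↥(A ⊔ B)) (v : Vt A B) : (x : Γ) ∈ th A B v ↔ x • v = v := by
  rcases vertex_cases v with ⟨n, rfl⟩ | ⟨n, rfl⟩
  · rw [th_A, mem_cj, smul_vA, eq_comm, vA_eq, Subgroup.mem_subgroupOf]
    change _ ↔ (n : Γ)⁻¹ * (x * n) ∈ A
    rw [mul_assoc]
  · rw [th_B, mem_cj, smul_vB, eq_comm, vB_eq, Subgroup.mem_subgroupOf]
    change _ ↔ (n : Γ)⁻¹ * (x * n) ∈ B
    rw [mul_assoc]

theorem th_le (v : Vt A B) : th A B v ≤ A ⊔ B := by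
  rcases vertex_cases v with ⟨n, rfl⟩ | ⟨n, rfl⟩
  · rw [th_A]
    intro x hx
    rw [mem_cj] at hx
    have h1 := mul_mem (mul_mem n.2 (Subgroup.mem_sup_left (T := B) hx)) (inv_mem n.2)
    have : (n : Γ) * ((n : Γ)⁻¹ * x * n) * (n : Γ)⁻¹ = x := by group
    rwa [this] at h1
  · rw [th_B]
    intro x hx
    rw [mem_cj] at hx
    have h1 := mul_mem (mul_mem n.2 (Subgroup.mem_sup_right (S := A) hx)) (inv_mem n.2)
    have : (n : Γ) * ((n : Γ)⁻¹ * x * n) * (n : Γ)⁻¹ = x := by group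
    rwa [this] at h1

theorem cj_ne_bot {g : Γ} {P : Subgroup Γ} (h : P ≠ ⊥) : cj g P ≠ ⊥ := by
  intro h1
  apply h
  have h2 : cj g P = cj g ⊥ := by
    rw [h1]
    exact (Subgroup.map_bot _).symm
  exact cj_inj h2

theorem th_ne_bot (hA : A ≠ ⊥) (hB : B ≠ ⊥) (v : Vt A B) : th A B v ≠ ⊥ := by
  rcases vertex_cases v with ⟨n, rfl⟩ | ⟨n, rfl⟩
  · rw [th_A]; exact cj_ne_bot hA
  · rw [th_B]; exact cj_ne_bot hB

/-- an element fixing two vertices is trivial -/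
theorem eq_one_of_mem (hf : IsFreeProd A B) {x : Γ} {u v : Vt A B} (huv : u ≠ v)
    (hu : x ∈ th A B u) (hv : x ∈ th A B v) : x = 1 := by
  have hx := th_le u hu
  have h1 : (⟨x, hx⟩ : ↥(A ⊔ B)) • u = u := (mem_th _ _).1 hu
  have h2 : (⟨x, hx⟩ : ↥(A ⊔ B)) • v = v := (mem_th _ _).1 hv
  obtain ⟨w, hw1, hw2⟩ := fixed_edge (Q27.FJT.isTree (amg hf))
    (fun z => (⟨x, hx⟩ : ↥(A ⊔ B)) • z) (MulAction.injective _) (fun a b h => atree_adj _ h)
    h1 h2 huv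
  obtain ⟨y, k, hk, h3⟩ := edge_stab (amg hf) hw1 h1 hw2
  rw [Subgroup.mem_bot] at hk
  rw [hk, mul_one, mul_inv_cancel] at h3
  exact congrArg Subtype.val h3

theorem th_inj (hf : IsFreeProd A B) (hA : A ≠ ⊥) (hB : B ≠ ⊥) :
    Function.Injective (th A B) := by
  intro u v h
  by_contra huv
  obtain ⟨x, hx⟩ := Subgroup.ne_bot_iff_exists_ne_one.1 (th_ne_bot hA hB u)
  apply hx
  apply Subtype.ext
  exact eq_one_of_mem hf huv x.2 (h ▸ x.2)

/-- the set of the conjugates of `A` and `B` -/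
abbrev CV (A B : Subgroup Γ) : Type := ↥(Set.range (th A B))

/-- the tree on the set of the conjugates of `A` and `B` -/
def CT (A B : Subgroup Γ) : SimpleGraph (CV A B) where
  Adj P Q := P ≠ Q ∧ ∃ u v : Vt A B, (atree _ _).Adj u v ∧ th A B u = P.1 ∧ th A B v = Q.1
  symm := ⟨fun _ _ ⟨h, u, v, h1, h2, h3⟩ => ⟨h.symm, v, u, h1.symm, h3, h2⟩⟩
  loopless := ⟨fun _ h => h.1 rfl⟩

theorem CT_isTree (hf : IsFreeProd A B) (hA : A ≠ ⊥) (hB : B ≠ ⊥) : (CT A B).IsTree := by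
  let e := Equiv.ofInjective (th A B) (th_inj hf hA hB)
  have he : ∀ u, (e u).1 = th A B u := fun u => rfl
  let I : atree (A.subgroupOf (A ⊔ B)) (B.subgroupOf (A ⊔ B)) ≃g CT A B :=
    { toEquiv := e
      map_rel_iff' := by
        intro a b
        constructor
        · rintro ⟨_, u, v, h1, h2, h3⟩
          have h4 := th_inj hf hA hB h2
          have h5 := th_inj hf hA hB h3
          rwa [h4, h5] at h1
        · intro h
          refine ⟨fun h1 => ?_, a, b, h, rfl, rfl⟩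
          exact h.ne (e.injective h1) }
  exact (SimpleGraph.Iso.isTree_iff I).1 (Q27.FJT.isTree (amg hf))

variable (A B) in
/-- the conjugates of `A` and `B` in `A ⊔ B` are permuted by `Γ` -/
def Perm : Prop := ∀ g : Γ, (∃ n ∈ A ⊔ B, cj g A = cj n A ∨ cj g A = cj n B) ∧
  (∃ n ∈ A ⊔ B, cj g B = cj n A ∨ cj g B = cj n B)

theorem perm_range [hN : (A ⊔ B).Normal] (hP : Perm A B) (g : Γ) (v : Vt A B) :
    cj g (th A B v) ∈ Set.range (th A B) := by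
  have key : ∀ (n : ↥(A ⊔ B)) (P : Subgroup Γ), (∃ m ∈ A ⊔ B, cj g P = cj m A ∨ cj g P = cj m B) →
      cj g (cj (n : Γ) P) ∈ Set.range (th A B) := by
    rintro n P ⟨m, hm, h⟩
    have h1 : g * n * g⁻¹ ∈ A ⊔ B := hN.conj_mem _ n.2 g
    have h2 : cj g (cj (n : Γ) P) = cj (g * n * g⁻¹) (cj g P) := by
      rw [← cj_mul, ← cj_mul]
      congr 1
      group
    rw [h2]
    rcases h with h | h
    · refine ⟨vA _ _ (⟨_, h1⟩ * ⟨m, hm⟩), ?_⟩
      rw [th_A, h, ← cj_mul]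
      rfl
    · refine ⟨vB _ _ (⟨_, h1⟩ * ⟨m, hm⟩), ?_⟩
      rw [th_B, h, ← cj_mul]
      rfl
  rcases vertex_cases v with ⟨n, rfl⟩ | ⟨n, rfl⟩
  · exact key n A (hP g).1
  · exact key n B (hP g).2

/-- the action by conjugation -/
@[reducible] def act [(A ⊔ B).Normal] (hP : Perm A B) : MulAction Γ (CV A B) where
  smul g P := ⟨cj g P.1, by obtain ⟨v, hv⟩ := P.2; rw [← hv]; exact perm_range hP g v⟩
  one_smul P := Subtype.ext (cj_one _)
  mul_smul g h P := Subtype.ext (cj_mul g h _)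

/-- `N` is not generated by two conjugates of `A` -/
theorem not_two (hf : IsFreeProd A B) (hB : B ≠ ⊥) {m n : Γ}
    (hm : m ∈ A ⊔ B) (hn : n ∈ A ⊔ B) (h : A ⊔ B ≤ cj m A ⊔ cj n A) : False := by
  obtain ⟨h0, hh1, hh2⟩ := (amg hf).univ B
    (1 : ↥(A.subgroupOf (A ⊔ B)) →* B)
    ({ toFun := fun x => ⟨(x : ↥(A ⊔ B)), x.2⟩
       map_one' := rfl
       map_mul' := fun _ _ => rfl } : ↥(B.subgroupOf (A ⊔ B)) →* B) (by
      intro c hc
      rw [Subgroup.mem_bot] at hc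
      subst hc
      exact Subtype.ext rfl)
  have h1 : ∀ (m : Γ), m ∈ A ⊔ B → cj m A ≤ (h0.ker).map (A ⊔ B).subtype := by
    intro m hm x hx
    rw [mem_cj] at hx
    have hx' : m⁻¹ * x * m ∈ A ⊔ B := Subgroup.mem_sup_left hx
    refine ⟨⟨m, hm⟩ * ⟨m⁻¹ * x * m, hx'⟩ * (⟨m, hm⟩ : ↥(A ⊔ B))⁻¹, ?_, ?_⟩
    · change _ ∈ h0.ker
      rw [MonoidHom.mem_ker, map_mul, map_mul, map_inv]
      have h2 := hh1 ⟨⟨m⁻¹ * x * m, hx'⟩, hx⟩
      rw [h2, MonoidHom.one_apply, mul_one, mul_inv_cancel]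
    · change m * (m⁻¹ * x * m) * m⁻¹ = x
      group
  have h2 : A ⊔ B ≤ (h0.ker).map (A ⊔ B).subtype :=
    h.trans (sup_le (h1 m hm) (h1 n hn))
  obtain ⟨b, hb⟩ := Subgroup.ne_bot_iff_exists_ne_one.1 hB
  obtain ⟨y, hy, hyb⟩ := h2 (Subgroup.mem_sup_right b.2)
  have h3 := hh2 ⟨⟨b, Subgroup.mem_sup_right b.2⟩, b.2⟩
  have h4 : y = ⟨b, Subgroup.mem_sup_right b.2⟩ := Subtype.ext hyb
  have h5 : h0 y = 1 := hy
  rw [h4, h3] at h5
  exact hb h5

theorem IsFreeProd.symm (hf : IsFreeProd A B) : IsFreeProd B A := by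
  have h1 : (Monoid.Coprod.lift B.subtype A.subtype) =
      (Monoid.Coprod.lift A.subtype B.subtype).comp (Monoid.Coprod.swap B A) := by
    rw [Monoid.Coprod.lift_comp_swap]
  unfold IsFreeProd
  rw [h1]
  exact hf.comp (Monoid.Coprod.swap_injective)

/-- generating pairs are adjacent -/
theorem adj_of_gen (hf : IsFreeProd A B) (hB : B ≠ ⊥) [hN : (A ⊔ B).Normal] {m n : ↥(A ⊔ B)}
    (h : A ⊔ B ≤ cj (m : Γ) A ⊔ cj (n : Γ) B) : (atree _ _).Adj (vA _ _ m : Vt A B) (vB _ _ n) := by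
  have h1 : A ⊔ B ≤ A ⊔ cj ((m⁻¹ * n : ↥(A ⊔ B)) : Γ) B := by
    have h2 : cj (m : Γ)⁻¹ (A ⊔ B) ≤ cj (m : Γ)⁻¹ (cj (m : Γ) A ⊔ cj (n : Γ) B) :=
      Subgroup.map_mono h
    rw [cj_normal, cj_sup, ← cj_mul, ← cj_mul, inv_mul_cancel, cj_one] at h2
    exact h2
  obtain ⟨a, ha, b, hb, hab⟩ := gen_pair_sub hf hB (m⁻¹ * n).2 h1
  have ha' : a ∈ A ⊔ B := Subgroup.mem_sup_left ha
  have h3 : vA (A.subgroupOf (A ⊔ B)) (B.subgroupOf (A ⊔ B)) m = vA _ _ (m * ⟨a, ha'⟩) := by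
    rw [vA_eq, Subgroup.mem_subgroupOf]
    change (m : Γ)⁻¹ * (m * a) ∈ A
    rwa [inv_mul_cancel_left]
  have h4 : vB (A.subgroupOf (A ⊔ B)) (B.subgroupOf (A ⊔ B)) n = vB _ _ (m * ⟨a, ha'⟩) := by
    rw [vB_eq, Subgroup.mem_subgroupOf]
    change (n : Γ)⁻¹ * (m * a) ∈ B
    have h5 : (n : Γ) = m * (a * b) := by
      rw [← hab]
      change (n : Γ) = m * ((m : Γ)⁻¹ * n)
      group
    rw [h5]
    have h6 : ((m : Γ) * (a * b))⁻¹ * (m * a) = b⁻¹ := by group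
    rw [h6]
    exact inv_mem hb
  rw [h3, h4]
  exact adj_AB _

theorem adj_perm (hf : IsFreeProd A B) (hA : A ≠ ⊥) (hB : B ≠ ⊥) [hN : (A ⊔ B).Normal]
    (g : Γ) {u v u' v' : Vt A B} (huv : (atree _ _).Adj u v)
    (hu : th A B u' = cj g (th A B u)) (hv : th A B v' = cj g (th A B v)) :
    (atree _ _).Adj u' v' := by
  have key : ∀ (n : ↥(A ⊔ B)) (u' v' : Vt A B), th A B u' = cj g (cj (n : Γ) A) →
      th A B v' = cj g (cj (n : Γ) B) → (atree _ _).Adj u' v' := by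
    intro n u' v' hu hv
    have h1 : A ⊔ B ≤ th A B u' ⊔ th A B v' := by
      rw [hu, hv, ← cj_mul, ← cj_mul, ← cj_sup, cj_normal]
    rcases vertex_cases u' with ⟨a, rfl⟩ | ⟨a, rfl⟩ <;>
      rcases vertex_cases v' with ⟨b, rfl⟩ | ⟨b, rfl⟩
    · rw [th_A, th_A] at h1
      exact (not_two hf hB a.2 b.2 h1).elim
    · rw [th_A, th_B] at h1
      exact adj_of_gen hf hB h1
    · rw [th_A, th_B] at h1
      exact (adj_of_gen hf hB (h1.trans (le_of_eq (sup_comm _ _)))).symm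
    · exfalso
      rw [th_B, th_B] at h1
      have ha : (a : Γ) ∈ B ⊔ A := by rw [sup_comm]; exact a.2
      have hb : (b : Γ) ∈ B ⊔ A := by rw [sup_comm]; exact b.2
      exact not_two hf.symm hA ha hb (by rw [sup_comm B A]; exact h1)
  obtain ⟨n, h⟩ := huv
  rcases h with ⟨rfl, rfl⟩ | ⟨rfl, rfl⟩
  · exact key n _ _ hu hv
  · exact (key n _ _ hv hu).symm

theorem act_adj (hf : IsFreeProd A B) (hA : A ≠ ⊥) (hB : B ≠ ⊥) [hN : (A ⊔ B).Normal]
    (hP : Perm A B) (g : Γ) (P Q : CV A B) (h : (CT A B).Adj P Q) :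
    letI := act hP
    (CT A B).Adj (g • P) (g • Q) := by
  let _ := act hP
  obtain ⟨h0, u, v, h1, h2, h3⟩ := h
  obtain ⟨u', hu'⟩ := (g • P).2
  obtain ⟨v', hv'⟩ := (g • Q).2
  refine ⟨fun h4 => h0 (MulAction.injective g h4), u', v', ?_, hu', hv'⟩
  refine adj_perm hf hA hB g h1 ?_ ?_
  · rw [hu', h2]; rfl
  · rw [hv', h3]; rfl

end

end Q171.NF
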