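import Mathlib

/-!
# Generating pairs of conjugates of the factors of a free product
-/

set_option autoImplicit false

namespace Q171.NF

open Monoid CoprodI

section

variable {M : Bool → Type} [∀ i, Group (M i)]

theorem neWord_inj {i j k l : Bool} (w : NeWord M i j) (w' : NeWord M k l)
    (h : w.prod = w'.prod) : w.toList = w'.toList := by
  classical
  have h1 : w.toWord = w'.toWord := by
    have h2 := congrArg (Word.equiv (M := M)) h
    have h3 : ∀ x : Word M, Word.equiv x.prod = x := fun x => (Word.equiv (M := M)).right_inv x
    change Word.equiv w.toWord.prod = Word.equiv w'.toWord.prod at h2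
    rwa [h3, h3] at h2
  exact congrArg Word.toList h1

theorem neWord_fst {i j k l : Bool} (w : NeWord M i j) (w' : NeWord M k l)
    (h : w.prod = w'.prod) : i = k := by
  have h1 := congrArg List.head? (neWord_inj w w' h)
  rw [NeWord.toList_head?, NeWord.toList_head?, Option.some.injEq] at h1
  exact congrArg Sigma.fst h1

theorem neWord_ne_one {i j : Bool} (w : NeWord M i j) : w.prod ≠ 1 := by
  classical
  intro h
  have h2 := congrArg (Word.equiv (M := M)) h
  have h3 : ∀ x : Word M, Word.equiv x.prod = x := fun x => (Word.equiv (M := M)).right_inv x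
  have h4 : Word.equiv (1 : CoprodI M) = Word.empty := by
    rw [← Word.prod_empty, h3]
  change Word.equiv w.toWord.prod = Word.equiv (1 : CoprodI M) at h2
  rw [h3, h4] at h2
  exact NeWord.toList_ne_nil w (congrArg Word.toList h2)

theorem exists_neWord (x : CoprodI M) (hx : x ≠ 1) : ∃ (i j : Bool) (w : NeWord M i j),
    w.prod = x := by
  classical
  have h0 : (Word.equiv x).prod = x := (Word.equiv (M := M)).left_inv x
  have h1 : Word.equiv x ≠ Word.empty := by
    intro h
    rw [h, Word.prod_empty] at h0
    exact hx h0.symm
  obtain ⟨i, j, w, hw⟩ := NeWord.of_word _ h1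
  refine ⟨i, j, w, ?_⟩
  change w.toWord.prod = x
  rw [hw, h0]

/-- stripping the first letter -/
theorem strip (c : Bool) (x : CoprodI M) : ∃ (a : M c) (y : CoprodI M), x = of a * y ∧
    (y = 1 ∨ ∃ (j : Bool) (w : NeWord M (!c) j), w.prod = y) := by
  classical
  have key : ∀ w : Word M, ∃ (a : M c) (y : CoprodI M), w.prod = of a * y ∧
      (y = 1 ∨ ∃ (j : Bool) (w : NeWord M (!c) j), w.prod = y) := by
    intro w
    induction w using Word.consRecOn with
    | empty => exact ⟨1, 1, by simp, Or.inl rfl⟩
    | cons i m w h1 h2 _ =>
      have hgen : ∀ (v : Word M), v.fstIdx ≠ some c →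
          (v.prod = 1 ∨ ∃ (j : Bool) (w : NeWord M (!c) j), w.prod = v.prod) := by
        intro v hv
        by_cases hv0 : v = Word.empty
        · left; rw [hv0, Word.prod_empty]
        · obtain ⟨i', j', w', hw'⟩ := NeWord.of_word v hv0
          right
          have h3 : v.fstIdx = some i' := by
            rw [← hw']
            change w'.toList.head?.map Sigma.fst = _
            rw [NeWord.toList_head?]
            rfl
          have h4 : i' = !c := by
            rw [h3] at hv
            cases i' <;> cases c <;> simp_all
          subst h4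
          exact ⟨j', w', by rw [← hw']; rfl⟩
      by_cases hi : i = c
      · subst hi
        exact ⟨m, w.prod, Word.prod_cons i m w h2 h1, hgen w h1⟩
      · refine ⟨1, (Word.cons m w h1 h2).prod, by simp, hgen _ ?_⟩
        rw [Word.fstIdx_cons]
        simpa using hi
  have h0 : (Word.equiv x).prod = x := (Word.equiv (M := M)).left_inv x
  obtain ⟨a, y, h1, h2⟩ := key (Word.equiv x)
  exact ⟨a, y, by rw [← h1, h0], h2⟩

/-- double cosets -/
theorem dcoset (x : CoprodI M) : ∃ (a : M true) (b : M false) (y : CoprodI M),
    x = of a * y * of b ∧ (y = 1 ∨ ∃ w : NeWord M false true, w.prod = y) := by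
  obtain ⟨a, y, h1, h2⟩ := strip true x
  obtain ⟨b, z, h3, h4⟩ := strip false y⁻¹
  have h5 : y = z⁻¹ * of b⁻¹ := by
    rw [← inv_inj, h3, mul_inv_rev, inv_inv, map_inv, inv_inv]
  rcases h4 with h4 | ⟨j, w, hw⟩
  · refine ⟨a, b⁻¹, 1, ?_, Or.inl rfl⟩
    rw [h1, h5, h4, inv_one, one_mul, mul_one]
  · refine ⟨a, b⁻¹, z⁻¹, by rw [h1, h5, mul_assoc], Or.inr ?_⟩
    have h6 : w.inv.prod = z⁻¹ := by rw [NeWord.inv_prod, hw]
    change ∃ w : NeWord M false true, w.prod = z⁻¹
    cases j with
    | false => exact ⟨w.inv, h6⟩
    | true =>
      exfalso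
      obtain ⟨w', hw'⟩ : ∃ (k : Bool) (w' : NeWord M true k), w'.prod = y := by
        by_cases hb : b⁻¹ = 1
        · exact ⟨_, w.inv, by rw [h6, h5, hb, map_one, mul_one]⟩
        · refine ⟨_, NeWord.append w.inv (by simp) (NeWord.singleton b⁻¹ hb), ?_⟩
          rw [NeWord.append_prod, NeWord.prod_singleton, h6, h5]
      obtain ⟨w', hw'⟩ := hw'
      rcases h2 with h2 | ⟨k', w'', hw''⟩
      · exact neWord_ne_one w' (hw'.trans h2)
      · exact absurd (neWord_fst w' w'' (hw'.trans hw''.symm)) (by simp)

/-- the homomorphism which is the identity on the first factor and the conjugation by `x` on the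
second one -/
noncomputable def twist (x : CoprodI M) : CoprodI M →* CoprodI M :=
  CoprodI.lift (fun i => Bool.rec (motive := fun i => M i →* CoprodI M)
    ((MulAut.conj x).toMonoidHom.comp of) of i)

theorem twist_true (x : CoprodI M) (a : M true) : twist x (of a) = of a := by
  unfold twist
  rw [lift_of]

theorem twist_false (x : CoprodI M) (b : M false) : twist x (of b) = x * of b * x⁻¹ := by
  unfold twist
  rw [lift_of]
  rfl

theorem twist_word (n : NeWord M false true) : ∀ {i j : Bool} (w : NeWord M i j),
    ∃ w' : NeWord M i j, w'.prod = twist n.prod w.prod ∧ (w'.toList.length = 1 → i = true) := by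
  intro i j w
  induction w with
  | @singleton i x hx =>
    cases i with
    | true => exact ⟨NeWord.singleton x hx, by
        rw [NeWord.prod_singleton, twist_true], fun _ => rfl⟩
    | false =>
      refine ⟨NeWord.append (NeWord.append n (by simp) (NeWord.singleton x hx)) (by simp) n.inv,
        ?_, ?_⟩
      · rw [NeWord.append_prod, NeWord.append_prod, NeWord.inv_prod, NeWord.prod_singleton,
          twist_false]
      · intro h
        exfalso
        have h1 : 0 < n.toList.length := List.length_pos_of_ne_nil (NeWord.toList_ne_nil n)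
        simp only [NeWord.toList, List.length_append, List.length_singleton] at h
        omega
  | append w1 hne w2 ih1 ih2 =>
    obtain ⟨w1', h1, _⟩ := ih1
    obtain ⟨w2', h2, _⟩ := ih2
    refine ⟨NeWord.append w1' hne w2', by rw [NeWord.append_prod, NeWord.append_prod, h1, h2,
      map_mul], ?_⟩
    intro h
    exfalso
    have h3 : 0 < w1'.toList.length := List.length_pos_of_ne_nil (NeWord.toList_ne_nil w1')
    have h4 : 0 < w2'.toList.length := List.length_pos_of_ne_nil (NeWord.toList_ne_nil w2')
    simp only [NeWord.toList, List.length_append] at h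
    omega

/-- **generating pairs**: if the first factor and the conjugate by `x` of the second one generate
the free product, then `x` is in the product of the factors -/
theorem gen_pair (x : CoprodI M) (hb : ∃ b : M false, b ≠ 1)
    (hx : ∀ y : CoprodI M, y ∈ (twist x).range) : ∃ (a : M true) (b : M false), x = of a * of b := by
  obtain ⟨a, b, y, h1, h2⟩ := dcoset x
  rcases h2 with h2 | ⟨w, hw⟩
  · exact ⟨a, b, by rw [h1, h2, mul_one]⟩
  · exfalso
    obtain ⟨b0, hb0⟩ := hb
    -- the twist by `y` is onto
    have h3 : ∀ z, ∃ t, twist y t = z := by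
      have h4 : ∀ t, ∃ t', twist x t = of a * twist y t' * (of a)⁻¹ := by
        intro t
        induction t using CoprodI.induction_on with
        | one => exact ⟨1, by simp⟩
        | of i m =>
          cases i with
          | true => exact ⟨of (a⁻¹ * m * a), by
              rw [twist_true, twist_true, map_mul, map_mul, map_inv]; group⟩
          | false =>
            refine ⟨of (b * m * b⁻¹), ?_⟩
            rw [twist_false, twist_false, h1, map_mul, map_mul, map_inv]
            group
        | mul s t hs ht =>
          obtain ⟨s', hs⟩ := hs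
          obtain ⟨t', ht⟩ := ht
          exact ⟨s' * t', by rw [map_mul, map_mul, hs, ht]; group⟩
      intro z
      obtain ⟨t, ht⟩ := hx (of a * z * (of a)⁻¹)
      obtain ⟨t', ht'⟩ := h4 t
      refine ⟨t', ?_⟩
      rw [ht] at ht'
      have h5 := mul_right_cancel ht'
      exact (mul_left_cancel h5).symm
    obtain ⟨t, ht⟩ := h3 (of b0)
    have hs := NeWord.prod_singleton b0 hb0
    by_cases ht1 : t = 1
    · rw [ht1, map_one, ← hs] at ht
      exact neWord_ne_one _ ht.symm
    · obtain ⟨i, j, w0, hw0⟩ := exists_neWord t ht1
      obtain ⟨w', hw', hlen⟩ := twist_word w w0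
      rw [hw, hw0, ht, ← hs] at hw'
      have h6 := neWord_inj _ _ hw'
      have h7 := neWord_fst _ _ hw'
      have h8 := hlen (by rw [h6]; rfl)
      rw [h7] at h8
      exact absurd h8 (by simp)

end

end Q171.NF
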